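import Pool.Agent.helper87.AU.SpecQ1

/-!
# Project au: module QZ3 (the number of zeros and of poles is `[F : k(z)]`)
-/

namespace Pool.Agent.helper53.AU

open scoped Classical IntermediateField
open Polynomial (aeval)

noncomputable section

theorem QZ3_adjoin (k F : Type) [Field k] [Field F] [Algebra k F] (z : F) :
    IntermediateField.adjoin k ({z⁻¹} : Set F) = IntermediateField.adjoin k ({z} : Set F) := by
  apply le_antisymm
  · rw [IntermediateField.adjoin_le_iff, Set.singleton_subset_iff]
    exact inv_mem (IntermediateField.mem_adjoin_simple_self k z)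
  · rw [IntermediateField.adjoin_le_iff, Set.singleton_subset_iff]
    have h := inv_mem (IntermediateField.mem_adjoin_simple_self k z⁻¹)
    rw [inv_inv] at h
    exact h

theorem QZ3_degx (k F : Type) [Field k] [Field F] [Algebra k F] (z : F) :
    degx k z⁻¹ = degx k z := by
  unfold degx
  rw [QZ3_adjoin]

theorem QZ3_trans (k F : Type) [Field k] [Field F] [Algebra k F] (z : F)
    (hz : Transcendental k z) : Transcendental k z⁻¹ := by
  intro h
  apply hz
  have h' := h.inv
  rw [inv_inv] at h'
  exact h'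

/-- the pole divisor -/
def QZ3_pole (k F : Type) [Field k] [Field F] [Algebra k F] (f : F)
    (h : (Function.support fun P : Place k F => P.ord f).Finite) : Place k F →₀ ℤ :=
  Finsupp.ofSupportFinite (fun P => max (-P.ord f) 0) (h.subset (by
    intro P hP
    rw [Function.mem_support] at hP ⊢
    intro h0
    apply hP
    rw [h0]
    simp))

theorem QZ3_pole_apply (k F : Type) [Field k] [Field F] [Algebra k F] (f : F)
    (h : (Function.support fun P : Place k F => P.ord f).Finite) (P : Place k F) :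
    QZ3_pole k F f h P = max (-P.ord f) 0 := rfl

theorem QZ3_deg (k F : Type) [Field k] [Field F] [Algebra k F] (f : F)
    (h : (Function.support fun P : Place k F => P.ord f).Finite) :
    degD (QZ3_pole k F f h) = ∑ᶠ P : Place k F, max (-P.ord f) 0 := by
  rw [finsum_eq_sum_of_support_subset (s := (QZ3_pole k F f h).support)]
  · rfl
  · intro P hP
    rw [Finset.mem_coe, Finsupp.mem_support_iff]
    exact hP

theorem QZ3_arith (n a c : ℤ) (h : ∀ r : ℕ, n * (r + 1) ≤ 1 + (r * a + c)) : n ≤ a := by
  by_contra hlt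
  push Not at hlt
  obtain ⟨d, hd⟩ : ∃ d : ℤ, n = a + 1 + d ∧ 0 ≤ d := ⟨n - a - 1, by ring, by omega⟩
  have h1 := h (c.natAbs + n.natAbs + 2)
  push_cast at h1
  have h2 := le_abs_self c
  have h3 := neg_abs_le n
  have h4 := abs_nonneg c
  have h5 := abs_nonneg n
  rw [hd.1] at h1 h3
  have h6 : 0 ≤ d * (|c| + |a + 1 + d| + 2) := by
    apply mul_nonneg hd.2
    positivity
  have h7 := hd.1
  nlinarith

theorem QZ3_lower (hQL2 : QL2_stmt) (hQV4 : QV4_stmt) (hQR1 : QR1_stmt) (k F : Type) [Field k]
    [IsAlgClosed k] [Field F] [Algebra k F] (hF : IsFF k F) (z : F) (hz : Transcendental k z) :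
    (degx k z : ℤ) ≤ ∑ᶠ P : Place k F, max (-P.ord z) 0 := by
  have hz0 : z ≠ 0 := by
    rintro rfl
    exact hz isAlgebraic_zero
  obtain ⟨u, hu, _⟩ := hQL2 k F hF z hz
  have hune : ∀ i, u i ≠ 0 := by
    intro i hi
    have h := hu (fun j => if j = i then 1 else 0) ?_ i
    · simp at h
    · apply Finset.sum_eq_zero
      intro j _
      by_cases hj : j = i
      · subst hj; rw [hi, mul_zero]
      · simp [hj]
  have hsz := hQV4 k F hF z hz0
  have hsu : ∀ i, (Function.support fun P : Place k F => P.ord (u i)).Finite :=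
    fun i => hQV4 k F hF (u i) (hune i)
  set A : Place k F →₀ ℤ := QZ3_pole k F z hsz with hA
  set C : Place k F →₀ ℤ := ∑ i, QZ3_pole k F (u i) (hsu i) with hC
  rw [← QZ3_deg k F z hsz, ← hA]
  obtain ⟨hfin, hell0, hle⟩ := hQR1 k F hF
  have hdeg_add : ∀ D D' : Place k F →₀ ℤ, degD (D + D') = degD D + degD D' := by
    intro D D'
    exact Finsupp.sum_add_index' (fun _ => rfl) (fun _ _ _ => rfl)
  have hdeg_smul : ∀ (r : ℕ) (D : Place k F →₀ ℤ), degD (r • D) = r * degD D := by
    intro r D
    induction r with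
    | zero => simp [degD]
    | succ r ih => rw [succ_nsmul, hdeg_add, ih]; push_cast; ring
  apply QZ3_arith _ _ (degD C)
  intro r
  have h0 : (0 : Place k F →₀ ℤ) ≤ r • A + C := by
    intro P
    have h1 : 0 ≤ A P := by rw [hA, QZ3_pole_apply]; exact le_max_right _ _
    have h2 : 0 ≤ C P := by
      rw [hC, Finsupp.finsetSum_apply]
      apply Finset.sum_nonneg
      intro i _
      rw [QZ3_pole_apply]; exact le_max_right _ _
    have h3 : (r • A + C) P = r * A P + C P := by simp
    rw [h3]
    exact add_nonneg (mul_nonneg (Int.natCast_nonneg r) h1) h2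
  have h1 := (hle 0 (r • A + C) h0).2
  rw [hell0, hdeg_add, hdeg_smul] at h1
  have hdeg0 : degD (0 : Place k F →₀ ℤ) = 0 := by simp [degD]
  rw [hdeg0] at h1
  -- independent elements
  have hmem : ∀ p : Fin (degx k z) × Fin (r + 1), z ^ (p.2 : ℕ) * u p.1 ∈ RR (r • A + C) := by
    rintro ⟨i, j⟩
    right
    intro P
    have e1 : P.ord (z ^ (j : ℕ) * u i) = (j : ℕ) * P.ord z + P.ord (u i) := by
      rw [P.ord_mul _ _ (pow_ne_zero _ hz0) (hune i), P.ord_pow hz0]
    rw [e1]
    have h2 : max (-P.ord (u i)) 0 ≤ C P := by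
      rw [hC, Finsupp.finsetSum_apply]
      have h3 := Finset.single_le_sum (f := fun i => QZ3_pole k F (u i) (hsu i) P)
        (s := Finset.univ) (fun i _ => by
          simp only [QZ3_pole_apply]; exact le_max_right _ _) (Finset.mem_univ i)
      simp only [QZ3_pole_apply] at h3
      exact h3
    have h4 : -P.ord (u i) ≤ C P := le_trans (le_max_left _ _) h2
    have h5 : -P.ord z ≤ A P := by rw [hA, QZ3_pole_apply]; exact le_max_left _ _
    have h6 : 0 ≤ A P := by rw [hA, QZ3_pole_apply]; exact le_max_right _ _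
    have h7 : ((j : ℕ) : ℤ) ≤ r := by
      have := j.2
      omega
    have h8 : ((j : ℕ) : ℤ) * -P.ord z ≤ ((j : ℕ) : ℤ) * A P :=
      mul_le_mul_of_nonneg_left h5 (Int.natCast_nonneg _)
    have h9 : ((j : ℕ) : ℤ) * A P ≤ r * A P := mul_le_mul_of_nonneg_right h7 h6
    have h10 : (r • A + C) P = r * A P + C P := by simp
    rw [h10]
    linarith
  have hli : LinearIndependent k
      (fun p : Fin (degx k z) × Fin (r + 1) => (⟨z ^ (p.2 : ℕ) * u p.1, hmem p⟩ : RR (r • A + C))) := by
    rw [Fintype.linearIndependent_iff]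
    intro g hg
    have hg' := congrArg (Subtype.val) hg
    rw [Submodule.coe_sum] at hg'
    have hg2 : ∑ i, aeval z (∑ j : Fin (r + 1), Polynomial.monomial (j : ℕ) (g (i, j))) * u i = 0 := by
      rw [← hg'.trans Submodule.coe_zero, Fintype.sum_prod_type]
      apply Finset.sum_congr rfl
      intro i _
      rw [map_sum, Finset.sum_mul]
      apply Finset.sum_congr rfl
      intro j _
      rw [Polynomial.aeval_monomial, Submodule.coe_smul, Algebra.smul_def]
      ring
    have h2 := hu _ hg2
    rintro ⟨i, j⟩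
    have h3 := congrArg (fun p => Polynomial.coeff p (j : ℕ)) (h2 i)
    simp only [Polynomial.finsetSum_coeff, Polynomial.coeff_monomial, Polynomial.coeff_zero] at h3
    rw [Finset.sum_eq_single j] at h3
    · simpa using h3
    · intro b _ hb
      rw [if_neg]
      intro h
      exact hb (Fin.ext h)
    · intro h
      exact absurd (Finset.mem_univ j) h
  have hfin' := hfin (r • A + C)
  have hcard := hli.fintype_card_le_finrank
  rw [Fintype.card_prod, Fintype.card_fin, Fintype.card_fin] at hcard
  have h11 : ((degx k z * (r + 1) : ℕ) : ℤ) ≤ (ell (r • A + C) : ℤ) := by exact_mod_cast hcard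
  push_cast at h11 h1
  linarith

theorem QZ3_poles (hQL2 : QL2_stmt) (hQV4 : QV4_stmt) (hQR1 : QR1_stmt) (hQZ1 : QZ1_stmt)
    (k F : Type) [Field k] [IsAlgClosed k] [Field F] [Algebra k F] (hF : IsFF k F) (z : F)
    (hz : Transcendental k z) :
    ∑ᶠ P : Place k F, max (-P.ord z) 0 = (degx k z : ℤ) := by
  apply le_antisymm
  · have hz0 : z ≠ 0 := by
      rintro rfl
      exact hz isAlgebraic_zero
    have hsz := hQV4 k F hF z hz0
    rw [← QZ3_deg k F z hsz, ← QZ3_degx k F z]
    have h := hQZ1 k F hF z⁻¹ (QZ3_trans k F z hz) (QZ3_pole k F z hsz).support (by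
      intro P hP
      rw [Finsupp.mem_support_iff, QZ3_pole_apply] at hP
      rw [P.ord_inv hz0]
      by_contra hcon
      exact hP (max_eq_right (not_lt.1 hcon)))
    refine le_trans (le_of_eq ?_) h
    unfold degD Finsupp.sum
    apply Finset.sum_congr rfl
    intro P hP
    rw [Finsupp.mem_support_iff, QZ3_pole_apply] at hP
    rw [QZ3_pole_apply, P.ord_inv hz0]
    by_contra hcon
    apply hP
    rcases le_total (-P.ord z) 0 with h1 | h1
    · exact max_eq_right h1
    · exact absurd (max_eq_left h1) hcon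
  · exact QZ3_lower hQL2 hQV4 hQR1 k F hF z hz

theorem QZ3 (hQL2 : QL2_stmt) (hQV4 : QV4_stmt) (hQR1 : QR1_stmt) (hQZ1 : QZ1_stmt) :
    QZ3_stmt := by
  intro k F _ _ _ _ hF z hz
  refine ⟨?_, QZ3_poles hQL2 hQV4 hQR1 hQZ1 k F hF z hz⟩
  have hz0 : z ≠ 0 := by
    rintro rfl
    exact hz isAlgebraic_zero
  have h := QZ3_poles hQL2 hQV4 hQR1 hQZ1 k F hF z⁻¹ (QZ3_trans k F z hz)
  rw [QZ3_degx] at h
  rw [← h]
  apply finsum_congr
  intro P
  rw [P.ord_inv hz0, neg_neg]

end

end Pool.Agent.helper53.AU
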