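import Pool.Agent.helper75.AU.SpecR

/-!
# Project au: module CO (lengths of the orbits of a cyclic complement)
-/

set_option linter.unusedVariables false

namespace Pool.Agent.helper75.AU

open scoped Classical
open Pool.Agent.helper53.AU MulAction

theorem CO_thr_conj (G : Type) [Group G] (a s : G) (hs : s ∈ thr G) : a * s * a⁻¹ ∈ thr G := by
  unfold thr at hs ⊢
  induction hs using Subgroup.closure_induction with
  | mem x hx =>
    obtain ⟨n, hn⟩ := hx
    apply Subgroup.subset_closure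
    refine ⟨n, ?_⟩
    rw [conj_pow, hn]
    group
  | one =>
    rw [mul_one, mul_inv_cancel]
    exact Subgroup.one_mem _
  | mul x y _ _ hx hy =>
    have h : a * (x * y) * a⁻¹ = (a * x * a⁻¹) * (a * y * a⁻¹) := by group
    rw [h]
    exact mul_mem hx hy
  | inv x _ hx =>
    have h : a * x⁻¹ * a⁻¹ = (a * x * a⁻¹)⁻¹ := by group
    rw [h]
    exact inv_mem hx

theorem CO_card (G X : Type) [Group G] [MulAction G X] (a : G) (x : X) :
    Nat.card (stabilizer G (a • x) ⊓ thr G : Subgroup G) =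
      Nat.card (stabilizer G x ⊓ thr G : Subgroup G) := by
  symm
  apply Nat.card_congr
  refine
    { toFun := fun s => ⟨a * s.1 * a⁻¹, ?_, CO_thr_conj G a s.1 s.2.2⟩
      invFun := fun s => ⟨a⁻¹ * s.1 * a, ?_, ?_⟩
      left_inv := ?_
      right_inv := ?_ }
  · have h : s.1 • x = x := s.2.1
    change (a * s.1 * a⁻¹) • (a • x) = a • x
    rw [smul_smul, inv_mul_cancel_right, mul_smul, h]
  · have h : s.1 • (a • x) = a • x := s.2.1
    change (a⁻¹ * s.1 * a) • x = x
    rw [mul_assoc, mul_smul, mul_smul, h, inv_smul_smul]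
  · have h := CO_thr_conj G a⁻¹ s.1 s.2.2
    rw [inv_inv] at h
    exact h
  · intro s
    apply Subtype.ext
    change a⁻¹ * (a * s.1 * a⁻¹) * a = s.1
    group
  · intro s
    apply Subtype.ext
    change a * (a⁻¹ * s.1 * a) * a⁻¹ = s.1
    group

theorem CO (hBA1 : BA1_stmt) : CO_stmt := by
  intro k G X _ _ _ _ _ _ l R x u₁ h' e' c hcop hu hh' he' hcard hc hord h3 z hz n hn
  obtain ⟨_, _, _, _, _, _, _, _, ⟨m, hm⟩, _⟩ := hBA1 k G X (l + 1) R x
  obtain ⟨a, rfl⟩ := hz
  have hn' : c ^ n • (a • x) = a • x := hn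
  have hmem : c ^ n ∈ (stabilizer G (a • x) ⊓ thr G : Subgroup G) :=
    ⟨hn', Subgroup.pow_mem _ hc n⟩
  have h1 : orderOf (c ^ n) ∣ qq R x * u₁ * h' := by
    rw [← hcard, ← CO_card G X a x]
    exact Subgroup.orderOf_dvd_natCard _ hmem
  have h2 : orderOf (c ^ n) ∣ u₁ * e' := by
    rw [← hord]
    exact orderOf_pow_dvd n
  have hcop3 : Nat.Coprime (orderOf (c ^ n)) (qq R x) := by
    rw [hm]
    apply Nat.Coprime.pow_right
    rw [Nat.coprime_comm, Nat.Prime.coprime_iff_not_dvd Nat.prime_three]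
    intro h
    exact h3 (h.trans h2)
  have h4 : orderOf (c ^ n) ∣ u₁ * h' := by
    rw [mul_assoc] at h1
    exact hcop3.dvd_of_dvd_mul_left h1
  have h5 : orderOf (c ^ n) ∣ u₁ := by
    have h := Nat.dvd_gcd h4 h2
    rw [Nat.gcd_mul_left, hcop, mul_one] at h
    exact h
  have h6 : c ^ (n * u₁) = 1 := by
    rw [pow_mul]
    exact orderOf_dvd_iff_pow_eq_one.1 h5
  have h7 : u₁ * e' ∣ u₁ * n := by
    rw [← hord, mul_comm u₁ n]
    exact orderOf_dvd_of_pow_eq_one h6
  exact Nat.dvd_of_mul_dvd_mul_left hu h7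

end Pool.Agent.helper75.AU
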