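import Pool.Agent.helper53.AU.SpecG3

/-!
# Project au: module G5 (Theorem G when some witness inverts `A`)
-/

namespace Pool.Agent.helper53.AU

open scoped Classical

theorem G5_mod8 (c : ℕ) (hc : Odd c) : 3 ^ c % 8 = 3 := by
  obtain ⟨k, rfl⟩ := hc
  rw [pow_succ, pow_mul]
  have h : 9 ^ k % 8 = 1 := by
    rw [Nat.pow_mod]
    simp
  have h9 : (3 : ℕ) ^ 2 = 9 := by norm_num
  rw [h9]
  omega

/-- a regular subgroup has as many elements as there are points -/
theorem G5_card_regular {L Ω : Type} [Group L] [MulAction L Ω] (D : Subgroup L) (α : Ω)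
    (h : Regular Ω D) : Nat.card D = Nat.card Ω := by
  apply Nat.card_congr
  refine Equiv.ofBijective (fun d : D => (d : L) • α) ⟨?_, ?_⟩
  · intro d e hde
    obtain ⟨x, _, hx⟩ := h α ((d : L) • α)
    have h1 := hx d rfl
    have h2 := hx e hde.symm
    rw [h1, h2]
  · intro β
    obtain ⟨x, hx, _⟩ := h α β
    exact ⟨x, hx⟩

theorem G5_two_pow (E n M : ℕ) (hE : Odd E) (h : 2 * (E * 2 ^ n) = M + 1) (hM : M % 8 = 3) :
    2 ^ n = 2 := by
  obtain ⟨k, rfl⟩ := hE
  rcases n with _ | _ | n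
  · exfalso
    simp only [pow_zero, mul_one] at h
    omega
  · norm_num
  · exfalso
    rw [pow_succ, pow_succ] at h
    have h' : 8 * ((2 * k + 1) * 2 ^ n) = M + 1 := by
      rw [← h]; ring
    omega

theorem G5 (hPLL : PLL_stmt) (hAB : AB_stmt) (hP1 : P1_stmt) (hP4 : P4_stmt) (hP6 : P6_stmt)
    (hXX : XX_stmt) (hG1 : G1_stmt) (hG3 : G3_stmt) (hG4 : G4_stmt) : G5_stmt := by
  intro L Ω _ _ A t hLL hW hinv
  have hPL := hPLL L Ω A hLL
  have : Finite L := hLL.finL
  have : Finite Ω := hLL.finΩ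
  have hTwo := hG1 L Ω A t hLL hW hinv
  obtain ⟨c, b, j, hcodd, hc3, hΩ, hb3, hbodd, hbdvd, hstab, hcent, hj⟩ := hXX L Ω A hLL hTwo
  obtain ⟨⟨τ, hτA, hτ⟩, hconj⟩ := hP1 L Ω A hPL
  obtain ⟨ν, hνodd, hν1, hν2, hν3, hν4⟩ := hP4 L Ω A hPL
  obtain ⟨hodd, htwo, hcard, hoddc, ⟨n, h2n⟩, _, _, _, huniq, _⟩ := hAB L A hLL.cyc
  have hνj : ν = 3 ^ j := by
    have h1 := hν2 τ hτ
    have h2 := hcent τ hτ
    rw [h1, hΩ] at h2
    exact Nat.eq_of_mul_eq_mul_right (Nat.succ_pos _) h2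
  have hA : 2 * Nat.card A = 3 ^ c + 1 := by rw [hLL.cardA, hΩ]
  have hmod := G5_mod8 c hcodd
  have h2 : Nat.card (twoPart A) = 2 := by
    rw [h2n]
    refine G5_two_pow (Nat.card (oddPart A)) n (3 ^ c) hoddc ?_ hmod
    rw [← h2n, hcard, hA]
  have hE : 4 * Nat.card (oddPart A) = 3 ^ c + 1 := by
    rw [← hA, ← hcard, h2]
    ring
  obtain ⟨α⟩ : Nonempty Ω := by
    have hpos : 0 < Nat.card Ω := by rw [hΩ]; exact Nat.succ_pos _
    exact (Nat.card_pos_iff.1 hpos).1
  have hinvcard : Nat.card {s : L // IsInv s} = 3 ^ c * b := by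
    have h3 := hν3 α
    rw [hstab α, hνj] at h3
    have h4 : Nat.card {s : L // IsInv s} * 3 ^ j = (3 ^ c * b) * 3 ^ j := by
      rw [h3, pow_add]; ring
    exact Nat.eq_of_mul_eq_mul_right (by positivity) h4
  have hcong := hG3 L Ω A t hLL hW hinv h2
  rw [hinvcard] at hcong
  have hb := hG4 c b (Nat.card (oddPart A)) hc3 hcodd hE hbdvd hcong
  have hj0 := hj hb
  have hcentΩ : ∀ σ : L, IsInv σ → Nat.card {g : L // g * σ = σ * g} = Nat.card Ω := by
    intro σ hσ
    rw [hcent σ hσ, hj0, hΩ]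
    simp
  refine ⟨⟨c, hcodd, hc3, hΩ, ?_⟩, hTwo, hcentΩ, ?_⟩
  · intro β
    rw [hstab β, hj0, hb]
    simp
  · intro t' hW' a ha
    obtain ⟨htτ, htA, hD, hreg, _⟩ := hP6 L Ω A hPL τ t hτA hτ hW
    obtain ⟨ht'τ, _, _, _, _⟩ := hP6 L Ω A hPL τ t' hτA hτ hW'
    have : IsCyclic A := hLL.cyc
    have hcomm : ∀ x ∈ A, ∀ y ∈ A, x * y = y * x := by
      intro x hx y hy
      have : IsMulCommutative A := IsCyclic.isMulCommutative
      have h := (IsMulCommutative.is_comm (M := A)).comm ⟨x, hx⟩ ⟨y, hy⟩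
      exact congrArg Subtype.val h
    have htt : t * t = 1 := hW.1
    have htinv : t⁻¹ = t := inv_eq_of_mul_eq_one_left htt
    -- D ≤ C(τ)
    have hDle : A ⊔ Subgroup.zpowers t ≤ Subgroup.centralizer ({τ} : Set L) := by
      intro g hg
      rw [Subgroup.mem_centralizer_singleton_iff]
      rcases (hD g).1 hg with h | h
      · exact hcomm g h τ hτA
      · have h1 : g * t * τ = τ * (g * t) := hcomm _ h τ hτA
        have h2 : g * τ * t = τ * g * t := by
          rw [mul_assoc, ← htτ, ← mul_assoc, h1, mul_assoc]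
        exact mul_right_cancel h2
    have hcardD : Nat.card (A ⊔ Subgroup.zpowers t : Subgroup L) = Nat.card Ω :=
      G5_card_regular _ α hreg
    have hcardC : Nat.card (Subgroup.centralizer ({τ} : Set L)) = Nat.card Ω := by
      rw [← hcentΩ τ hτ]
      apply Nat.card_congr
      exact Equiv.subtypeEquivRight (fun g => Subgroup.mem_centralizer_singleton_iff)
    have hDC : A ⊔ Subgroup.zpowers t = Subgroup.centralizer ({τ} : Set L) :=
      Subgroup.eq_of_le_of_card_ge hDle (by rw [hcardD, hcardC])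
    have ht'D : t' ∈ A ⊔ Subgroup.zpowers t := by
      rw [hDC, Subgroup.mem_centralizer_singleton_iff]
      exact ht'τ
    rcases (hD t').1 ht'D with h | h
    · exact absurd h hW'.2.1
    · have h1 : t' = (t' * t) * t := by rw [mul_assoc, htt, mul_one]
      have h2 : t' * a * t'⁻¹ = (t' * t) * (t * a * t⁻¹) * (t' * t)⁻¹ := by
        rw [mul_inv_rev]
        have : t' * t * (t * a * t⁻¹) * (t⁻¹ * t'⁻¹) = t' * (t * t) * a * (t * t)⁻¹ * t'⁻¹ := by
          group
        rw [this, htt]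
        simp
      rw [h2, hinv a ha, hcomm _ h _ (inv_mem ha)]
      group

end Pool.Agent.helper53.AU
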