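import Pool.Agent.helper53.AU.SpecG2

/-!
# Project au: module PLL (a member of LL is a member of PL)
-/

namespace Pool.Agent.helper53.AU

open scoped Classical

theorem PLL : PLL_stmt := by
  intro L Ω _ _ A h
  have : Finite L := h.finL
  have : Finite Ω := h.finΩ
  have hs : IsSimpleGroup L := h.simple
  have hf : FaithfulSMul L Ω := h.faithful
  obtain ⟨u, v, huv⟩ := h.nonab
  refine
    { finL := h.finL
      finΩ := h.finΩ
      nonempty := ?_
      faithful := h.faithful
      trans := h.trans
      noquot := ?_
      four := h.four
      three := h.three
      copr := h.copr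
      stab := h.stab
      cyc := h.cyc
      cardA := h.cardA
      semireg := h.semireg
      dih := h.dih }
  · by_contra hne
    rw [not_nonempty_iff] at hne
    apply huv
    apply hf.eq_of_smul_eq_smul
    intro α
    exact (hne.false α).elim
  · intro N hN r n hr hr3 hidx
    rcases hs.eq_bot_or_eq_top_of_normal N hN with hbot | htop
    · exfalso
      rw [hbot, Subgroup.index_bot] at hidx
      have : Fact r.Prime := ⟨hr⟩
      have hp : IsPGroup r L := IsPGroup.of_card hidx
      have hnt : Nontrivial L := hs.toNontrivial
      have hc : Nontrivial (Subgroup.center L) := hp.center_nontrivial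
      rcases hs.eq_bot_or_eq_top_of_normal (Subgroup.center L) inferInstance with hb | ht
      · rw [hb] at hc
        exact not_subsingleton _ (inferInstance : Subsingleton (⊥ : Subgroup L))
      · apply huv
        have hu : u ∈ Subgroup.center L := by rw [ht]; exact Subgroup.mem_top u
        exact ((Subgroup.mem_center_iff.1 hu) v).symm
    · exact htop

end Pool.Agent.helper53.AU
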