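import Pool.Agent.helper87.AU.SpecQ2

/-!
# Project au: module QE3 (every place of the fixed field lies below a place)
-/

namespace Pool.Agent.helper53.AU

open scoped Classical IntermediateField
open IntermediateField (fixedField)

noncomputable section

theorem QE3 (hQE1 : QE1_stmt) (hQE2 : QE2_stmt) (hQR5 : QR5_stmt) (hQV0 : QV0_stmt) :
    QE3_stmt := by
  intro k F _ _ _ _ hF H hH Q
  obtain ⟨hE, _, _⟩ := hQE1 k F hF H hH
  obtain ⟨C, hC⟩ := hQR5 k (fixedField H) hE Q
  obtain ⟨x, hxreg, hx0, hxord⟩ := hC (C + 1) (by omega)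
  have hxF : (x : F) ≠ 0 := by
    intro h
    apply hx0
    exact Subtype.ext h
  have hpole : ∃ P : Place k F, ¬ P.Ge 0 (x : F) := by
    by_contra hcon
    push Not at hcon
    obtain ⟨c, hc⟩ := hQV0 k F hF (x : F) hcon
    have hc' : x = algebraMap k (fixedField H) c := Subtype.ext hc
    have hc0 : c ≠ 0 := by
      rintro rfl
      apply hx0
      rw [hc', map_zero]
    have h := Q.ord_const c hc0
    rw [← hc', hxord] at h
    omega
  obtain ⟨P, hP⟩ := hpole
  obtain ⟨Q', e, hB⟩ := (hQE2 k F hF H hH P).1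
  refine ⟨P, e, ?_⟩
  have hQQ : Q' = Q := by
    by_contra hne
    have h1 : Q'.Ge 0 x := hxreg Q' hne
    have h2 : 0 ≤ Q'.ord x := h1.le hx0
    apply hP
    right
    rw [hB.2 x]
    exact mul_nonneg (Int.natCast_nonneg e) h2
  rw [← hQQ]
  exact hB

end

end Pool.Agent.helper53.AU
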