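import Pool.Agent.helper75.AU.SpecR

/-!
# Project au: module S63 (the action of the cyclic group on the Sylow 3-subgroups)
-/

set_option linter.unusedVariables false

namespace Pool.Agent.helper75.AU

open scoped Classical
open Pool.Agent.helper53.AU MulAction

theorem S63_fib (O Om : Type) [Finite O] [Finite Om] (pi : O → Om) (f : ℕ)
    (hf : ∀ S : Om, Nat.card {z : O // pi z = S} = f) (A : Set O) (B : Set Om)
    (hAB : ∀ z, z ∈ A ↔ pi z ∈ B) : Nat.card A = Nat.card B * f := by
  have := Fintype.ofFinite O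
  have := Fintype.ofFinite Om
  have e : A ≃ Σ S : B, {z : O // pi z = S.1} :=
    { toFun := fun z => ⟨⟨pi z.1, (hAB z.1).1 z.2⟩, ⟨z.1, rfl⟩⟩
      invFun := fun p => ⟨p.2.1, (hAB _).2 (by rw [p.2.2]; exact p.1.2)⟩
      left_inv := fun z => rfl
      right_inv := by
        rintro ⟨⟨S, hS⟩, ⟨z, hz⟩⟩
        have hz' : pi z = S := hz
        subst hz'
        rfl }
  rw [Nat.card_congr e, Nat.card_sigma]
  simp only [hf]
  rw [Finset.sum_const, Finset.card_univ, smul_eq_mul, Nat.card_eq_fintype_card]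

theorem S63_period (G Y : Type) [Group G] [MulAction G Y] [Finite Y] (c : G) (y : Y) :
    ∃ p : ℕ, 0 < p ∧ Nat.card (orbit (Subgroup.zpowers c) y) = p ∧
      ∀ n : ℕ, c ^ n • y = y ↔ p ∣ n := by
  have := Fintype.ofFinite (orbit (Subgroup.zpowers c) y)
  refine ⟨Nat.card (orbit (Subgroup.zpowers c) y), ?_, rfl, ?_⟩
  · have : Nonempty (orbit (Subgroup.zpowers c) y) := ⟨⟨y, mem_orbit_self y⟩⟩
    exact Nat.card_pos
  · intro n
    rw [Nat.card_eq_fintype_card, ← minimalPeriod_eq_card]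
    exact pow_smul_eq_iff_minimalPeriod_dvd

theorem S63_mem_orbit (G Y : Type) [Group G] [MulAction G Y] (c : G) (hc : 0 < orderOf c)
    (y z : Y) : z ∈ orbit (Subgroup.zpowers c) y ↔ ∃ n : ℕ, c ^ n • y = z := by
  constructor
  · rintro ⟨⟨g, hg⟩, rfl⟩
    have h := ((orderOf_pos_iff.1 hc).mem_powers_iff_mem_zpowers).2 hg
    obtain ⟨n, hn⟩ := h
    refine ⟨n, ?_⟩
    have hn' : c ^ n = g := hn
    rw [hn']
    rfl
  · rintro ⟨n, rfl⟩
    exact ⟨⟨c ^ n, Subgroup.npow_mem_zpowers c n⟩, rfl⟩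

theorem S63_orbits (G O Om : Type) [Group G] [MulAction G O] [MulAction G Om] [Finite O]
    [Finite Om] [Nonempty Om] (c : G) (hc : 0 < orderOf c) (pi : O → Om)
    (hpi : ∀ (n : ℕ) (z : O), pi (c ^ n • z) = c ^ n • pi z) (f D e' : ℕ)
    (hf : ∀ S : Om, Nat.card {z : O // pi z = S} = f) (hf0 : 0 < f)
    (hO : Nat.card O = D * e') (hD : D = 1 ∨ D = 2) (he' : 0 < e')
    (hper : ∀ (z : O) (n : ℕ), c ^ n • z = z → e' ∣ n) :
    ((∀ S S' : Om, ∃ n : ℕ, c ^ n • S = S') ∧
      ∀ (S : Om) (n : ℕ), c ^ n • S = S ↔ Nat.card Om ∣ n) ∨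
    (D = 2 ∧ ∃ w : ℕ, w * f = e' ∧ Nat.card Om = 2 * w ∧
      ∀ (S : Om) (n : ℕ), c ^ n • S = S ↔ w ∣ n) := by
  have hsurj : ∀ S : Om, ∃ z : O, pi z = S := by
    intro S
    have h : 0 < Nat.card {z : O // pi z = S} := by rw [hf]; exact hf0
    obtain ⟨⟨z, hz⟩⟩ := (Nat.card_pos_iff.1 h).1
    exact ⟨z, hz⟩
  by_cases hT : ∀ S S' : Om, ∃ n : ℕ, c ^ n • S = S'
  · left
    refine ⟨hT, ?_⟩
    intro S n
    obtain ⟨p, hp, hcard, hn⟩ := S63_period G Om c S
    have huniv : orbit (Subgroup.zpowers c) S = Set.univ := by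
      rw [Set.eq_univ_iff_forall]
      intro S'
      rw [S63_mem_orbit G Om c hc]
      exact hT S S'
    have hpc : p = Nat.card Om := by
      rw [← hcard, huniv]
      exact Nat.card_congr (Equiv.Set.univ Om)
    rw [hn n, hpc]
  · right
    push Not at hT
    obtain ⟨S1, S2, h12⟩ := hT
    obtain ⟨z1, hz1⟩ := hsurj S1
    obtain ⟨z2, hz2⟩ := hsurj S2
    obtain ⟨p1, hp1, hc1, hn1⟩ := S63_period G O c z1
    obtain ⟨p2, hp2, hc2, hn2⟩ := S63_period G O c z2
    have hd1 : e' ∣ p1 := hper z1 p1 ((hn1 p1).2 dvd_rfl)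
    have hd2 : e' ∣ p2 := hper z2 p2 ((hn2 p2).2 dvd_rfl)
    have hle1 := Nat.le_of_dvd hp1 hd1
    have hle2 := Nat.le_of_dvd hp2 hd2
    -- orbits of the images are disjoint
    have hdisjS : ∀ S : Om, ¬ (S ∈ orbit (Subgroup.zpowers c) S1 ∧
        S ∈ orbit (Subgroup.zpowers c) S2) := by
      rintro S ⟨ha, hb⟩
      have h1 : orbit (Subgroup.zpowers c) S1 = orbit (Subgroup.zpowers c) S := by
        exact (orbit_eq_iff.2 ha).symm
      have h2 : S2 ∈ orbit (Subgroup.zpowers c) S := by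
        rw [orbit_eq_iff.2 hb]
        exact mem_orbit_self _
      rw [← h1, S63_mem_orbit G Om c hc] at h2
      obtain ⟨n, hn⟩ := h2
      exact h12 n hn
    have hmap : ∀ z z' : O, z' ∈ orbit (Subgroup.zpowers c) z →
        pi z' ∈ orbit (Subgroup.zpowers c) (pi z) := by
      intro z z' h
      rw [S63_mem_orbit G O c hc] at h
      obtain ⟨n, rfl⟩ := h
      rw [S63_mem_orbit G Om c hc]
      exact ⟨n, (hpi n z).symm⟩
    have hdisj : Disjoint (orbit (Subgroup.zpowers c) z1) (orbit (Subgroup.zpowers c) z2) := by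
      rw [Set.disjoint_left]
      intro z ha hb
      apply hdisjS (pi z)
      rw [← hz1, ← hz2]
      exact ⟨hmap z1 z ha, hmap z2 z hb⟩
    have hunion : (orbit (Subgroup.zpowers c) z1 ∪ orbit (Subgroup.zpowers c) z2).ncard =
        p1 + p2 := by
      rw [Set.ncard_union_eq hdisj (Set.toFinite _) (Set.toFinite _), ← hc1, ← hc2]
      rfl
    have hle : p1 + p2 ≤ D * e' := by
      rw [← hunion, ← hO]
      exact Set.ncard_le_card _
    have hD2 : D = 2 := by
      rcases hD with rfl | rfl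
      · exfalso
        omega
      · rfl
    subst hD2
    have hp1e : p1 = e' := by omega
    have hp2e : p2 = e' := by omega
    have huniv : orbit (Subgroup.zpowers c) z1 ∪ orbit (Subgroup.zpowers c) z2 = Set.univ := by
      apply Set.eq_of_subset_of_ncard_le (Set.subset_univ _)
      rw [Set.ncard_univ, hunion, hO, hp1e, hp2e]
      omega
    have hpre1 : ∀ z : O, z ∈ orbit (Subgroup.zpowers c) z1 ↔
        pi z ∈ orbit (Subgroup.zpowers c) S1 := by
      intro z
      constructor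
      · intro h
        rw [← hz1]
        exact hmap z1 z h
      · intro h
        have hz : z ∈ orbit (Subgroup.zpowers c) z1 ∪ orbit (Subgroup.zpowers c) z2 := by
          rw [huniv]; exact Set.mem_univ z
        rcases hz with hz | hz
        · exact hz
        · exfalso
          apply hdisjS (pi z)
          refine ⟨h, ?_⟩
          rw [← hz2]
          exact hmap z2 z hz
    have hpre2 : ∀ z : O, z ∈ orbit (Subgroup.zpowers c) z2 ↔
        pi z ∈ orbit (Subgroup.zpowers c) S2 := by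
      intro z
      constructor
      · intro h
        rw [← hz2]
        exact hmap z2 z h
      · intro h
        have hz : z ∈ orbit (Subgroup.zpowers c) z1 ∪ orbit (Subgroup.zpowers c) z2 := by
          rw [huniv]; exact Set.mem_univ z
        rcases hz with hz | hz
        · exfalso
          apply hdisjS (pi z)
          refine ⟨?_, h⟩
          rw [← hz1]
          exact hmap z1 z hz
        · exact hz
    have hfib1 := S63_fib O Om pi f hf _ _ hpre1
    have hfib2 := S63_fib O Om pi f hf _ _ hpre2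
    obtain ⟨w1, hw1, hcw1, hnw1⟩ := S63_period G Om c S1
    obtain ⟨w2, hw2, hcw2, hnw2⟩ := S63_period G Om c S2
    rw [hc1, hcw1, hp1e] at hfib1
    rw [hc2, hcw2, hp2e] at hfib2
    have hw : w1 = w2 := by
      apply Nat.eq_of_mul_eq_mul_right hf0
      rw [← hfib1, ← hfib2]
    subst hw
    refine ⟨rfl, w1, hfib1.symm, ?_, ?_⟩
    · have h := S63_fib O Om pi f hf Set.univ Set.univ (fun z => by simp)
      have hO' : Nat.card (Set.univ : Set O) = 2 * e' := by
        rw [← hO]; exact Nat.card_congr (Equiv.Set.univ O)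
      have hOm' : Nat.card (Set.univ : Set Om) = Nat.card Om :=
        Nat.card_congr (Equiv.Set.univ Om)
      rw [hO', hOm', hfib1] at h
      apply Nat.eq_of_mul_eq_mul_right hf0
      rw [← h]
      ring
    · intro S n
      obtain ⟨z, hz⟩ := hsurj S
      have hz' : z ∈ orbit (Subgroup.zpowers c) z1 ∪ orbit (Subgroup.zpowers c) z2 := by
        rw [huniv]; exact Set.mem_univ z
      have key : ∀ T : Om, S ∈ orbit (Subgroup.zpowers c) T → (c ^ n • S = S ↔ c ^ n • T = T) := by
        intro T hT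
        rw [S63_mem_orbit G Om c hc] at hT
        obtain ⟨m, rfl⟩ := hT
        rw [smul_smul, ← pow_add, add_comm, pow_add, mul_smul, smul_left_cancel_iff]
      rcases hz' with h | h
      · rw [key S1 (by rw [← hz]; exact (hpre1 z).1 h)]
        exact hnw1 n
      · rw [key S2 (by rw [← hz]; exact (hpre2 z).1 h)]
        exact hnw2 n

theorem S63_two_le (G : Type) [Group G] [Finite G] (K R3 : Subgroup G) (t : G) (hRK : R3 ≤ K)
    (ht : t ∈ K) (hcop : Nat.Coprime (orderOf t) (Nat.card R3))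
    (hK : Nat.card K ≤ 2 * Nat.card R3) : orderOf t ≤ 2 := by
  have hbot : Subgroup.zpowers t ⊓ R3 = ⊥ :=
    (Subgroup.disjoint_of_coprime_natCard (by rw [Nat.card_zpowers]; exact hcop)).eq_bot
  have htK : Subgroup.zpowers t ≤ K := by
    rw [Subgroup.zpowers_le]; exact ht
  have hinj : Function.Injective (fun p : Subgroup.zpowers t × R3 =>
      (⟨p.1.1 * p.2.1, mul_mem (htK p.1.2) (hRK p.2.2)⟩ : K)) := by
    rintro ⟨⟨a, ha⟩, ⟨b, hb⟩⟩ ⟨⟨a', ha'⟩, ⟨b', hb'⟩⟩ h
    have h1 : a * b = a' * b' := congrArg Subtype.val h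
    have h2 : a'⁻¹ * a = b' * b⁻¹ := by
      have h3 : a'⁻¹ * (a * b) * b⁻¹ = a'⁻¹ * (a' * b') * b⁻¹ := by rw [h1]
      have h4 : a'⁻¹ * (a * b) * b⁻¹ = a'⁻¹ * a := by group
      have h5 : a'⁻¹ * (a' * b') * b⁻¹ = b' * b⁻¹ := by group
      rw [← h4, h3, h5]
    have h3 : a'⁻¹ * a ∈ Subgroup.zpowers t ⊓ R3 := by
      refine ⟨(Subgroup.zpowers t).mul_mem ((Subgroup.zpowers t).inv_mem ha') ha, ?_⟩
      rw [h2]
      exact R3.mul_mem hb' (R3.inv_mem hb)
    rw [hbot, Subgroup.mem_bot] at h3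
    have ha1 : a = a' := (inv_mul_eq_one.1 h3).symm
    subst ha1
    have hb1 : b = b' := mul_left_cancel h1
    subst hb1
    rfl
  have h := Nat.card_le_card_of_injective _ hinj
  rw [Nat.card_prod, Nat.card_zpowers] at h
  have h' := le_trans h hK
  exact Nat.le_of_mul_le_mul_right h' Nat.card_pos

theorem S63_odd (G : Type) [Group G] [Finite G] (c : G) (hc : c ∈ thr G)
    (hT : ∀ S S' : Sylow 3 G, ∃ n : ℕ, c ^ n • S = S') (h4 : 2 ≤ Nat.card (Sylow 3 G)) :
    ¬ 2 ∣ Nat.card (Sylow 3 G) := by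
  have := Fintype.ofFinite (Sylow 3 G)
  have hsgn : ∀ g ∈ thr G, Equiv.Perm.sign (ph G g) = 1 := by
    intro g hg
    have hle : thr G ≤ ((Equiv.Perm.sign).comp (ph G)).ker := by
      unfold thr
      rw [Subgroup.closure_le]
      rintro x ⟨n, hn⟩
      change x ∈ ((Equiv.Perm.sign).comp (ph G)).ker
      rw [MonoidHom.mem_ker]
      have h1 : (((Equiv.Perm.sign).comp (ph G)) x) ^ (3 ^ n) = 1 := by
        rw [← map_pow, hn, map_one]
      rcases Int.units_eq_one_or (((Equiv.Perm.sign).comp (ph G)) x) with h | h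
      · exact h
      · exfalso
        rw [h, Odd.neg_one_pow (Odd.pow (by decide))] at h1
        exact absurd h1 (by decide)
    have h := hle hg
    rw [MonoidHom.mem_ker] at h
    exact h
  have hpow : ∀ (n : ℕ) (S : Sylow 3 G), ((ph G c) ^ n) S = c ^ n • S := by
    intro n S
    rw [← map_pow]
    rfl
  have hmove : ∀ S : Sylow 3 G, (ph G c) S ≠ S := by
    intro S hS
    have hS' : c • S = S := hS
    have hfix : ∀ n : ℕ, c ^ n • S = S := by
      intro n
      induction n with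
      | zero => simp
      | succ n ih => rw [pow_succ, mul_smul, hS', ih]
    have hsub : Subsingleton (Sylow 3 G) := by
      constructor
      intro A B
      obtain ⟨n, hn⟩ := hT S A
      obtain ⟨m, hm⟩ := hT S B
      rw [← hn, ← hm, hfix, hfix]
    have h1 : Nat.card (Sylow 3 G) ≤ 1 := Finite.card_le_one_iff_subsingleton.2 hsub
    omega
  have hne : Nonempty (Sylow 3 G) := inferInstance
  obtain ⟨S0⟩ := hne
  have hcyc : (ph G c).IsCycle := by
    refine ⟨S0, hmove S0, ?_⟩
    intro S _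
    obtain ⟨n, hn⟩ := hT S0 S
    refine ⟨(n : ℤ), ?_⟩
    rw [zpow_natCast, hpow, hn]
  have hsupp : (ph G c).support = Finset.univ := by
    rw [Finset.eq_univ_iff_forall]
    intro S
    rw [Equiv.Perm.mem_support]
    exact hmove S
  have h1 := hcyc.sign
  rw [hsgn c hc, hsupp, Finset.card_univ, ← Nat.card_eq_fintype_card] at h1
  intro h2
  have h3 : Even (Nat.card (Sylow 3 G)) := even_iff_two_dvd.2 h2
  rw [h3.neg_one_pow] at h1
  exact absurd h1 (by decide)

theorem S63 (hBA1 : BA1_stmt) (hBA3 : BA3_stmt) (hF1 : F1_stmt) (hCO : CO_stmt) (hPI : PI_stmt)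
    (hS62 : S62_stmt) : S63_stmt := by
  intro k G X _ _ _ _ _ _ l R x y D u h' e' u₁ c hSp hl hTwo hnn hNum hB1 hu₁ hc hord h3
  obtain ⟨f, pi, hpi, hfib, hf0, hoo, hPz, _⟩ := hPI k G X l R x hTwo.syl hTwo.wild
  obtain ⟨hDpos, hupos, hh'pos, he'pos⟩ := hNum.pos
  obtain ⟨hPx, hPmem, hP3, hPconj, hPstab, hinv, hstabx, h3x, ⟨m, hm⟩, _⟩ :=
    hBA1 k G X (l + 1) R x
  obtain ⟨hPy, hPmemy, hP3y, hPconjy, hPstaby, hinvy, hstaby, h3y, ⟨m', hm'⟩, _⟩ :=
    hBA1 k G X (l + 1) R y
  have hTx : 2 ∣ R.T x := (hBA3 k G X (l + 1) R x ⊤).2.2.2.2.2.2.2.2.1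
  have hTy : 2 ∣ R.T y := (hBA3 k G X (l + 1) R y ⊤).2.2.2.2.2.2.2.2.1
  have hcthr : c ∈ thr G := hc.2
  have hcy : c • y = y := hc.1
  have hordpos : 0 < orderOf c := orderOf_pos c
  obtain ⟨Sx, hSx⟩ := hTwo.syl
  -- D
  have hD : D = 1 ∨ D = 2 := by
    have h1 : D ∣ Nat.card G := by
      rw [hNum.N]
      exact ⟨qq R x * u * e' * h', by ring⟩
    have h2 : Nat.Coprime D l := by
      rw [Nat.coprime_comm, Nat.Prime.coprime_iff_not_dvd hSp.prime]
      intro h
      exact hl (h.trans h1)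
    have h4 : D ∣ 2 := h2.dvd_of_dvd_mul_right hNum.dvd
    exact (Nat.dvd_prime Nat.prime_two).1 h4
  -- the number of Sylow 3-subgroups
  have hOm1 : Nat.card (Sylow 3 G) % 3 = 1 := by
    have h := card_sylow_modEq_one 3 G
    exact h
  have hOmne : Nat.card (Sylow 3 G) ≠ 1 := by
    intro h
    apply hnn
    have hsub : Subsingleton (Sylow 3 G) := (Nat.card_eq_one_iff_unique.1 h).1
    rw [← hSx]
    exact Sylow.normal_of_subsingleton Sx
  have hOm4 : 4 ≤ Nat.card (Sylow 3 G) := by omega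
  -- the map to the Sylow subgroups is equivariant
  have hpieq : ∀ (a : G) (z : orbit G x), pi (a • z) = a • pi z := by
    intro a z
    apply Sylow.ext
    rw [hpi, Sylow.coe_subgroup_smul, hpi]
    ext s
    rw [Subgroup.mem_pointwise_smul_iff_inv_smul_mem]
    have hz := (hBA1 k G X (l + 1) R z.1).2.2.2.1 a (a⁻¹ * s * a)
    have h1 : a * (a⁻¹ * s * a) * a⁻¹ = s := by group
    rw [h1] at hz
    rw [orbit.coe_smul, hz]
    have h2 : (MulAut.conj a)⁻¹ • s = a⁻¹ * s * a := by
      rw [← map_inv]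
      change a⁻¹ * s * (a⁻¹)⁻¹ = a⁻¹ * s * a
      rw [inv_inv]
    rw [h2]
  have hfib' : ∀ S : Sylow 3 G, Nat.card {z : orbit G x // pi z = S} = f := by
    intro S
    rw [← hfib S]
    apply Nat.card_congr
    refine
      { toFun := fun z => ⟨z.1.1, z.1.2, by rw [← hpi z.1, z.2]⟩
        invFun := fun z => ⟨⟨z.1, z.2.1⟩, Sylow.ext (by rw [hpi]; exact z.2.2)⟩
        left_inv := fun z => rfl
        right_inv := fun z => rfl }
  have hper : ∀ (z : orbit G x) (n : ℕ), c ^ n • z = z → e' ∣ n := by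
    intro z n hz
    refine hCO k G X l R x u₁ h' e' c hNum.cop hu₁ hh'pos he'pos hB1 hcthr hord h3 z.1 z.2 n ?_
    have h := congrArg Subtype.val hz
    exact h
  have horb := S63_orbits G (orbit G x) (Sylow 3 G) c hordpos pi
    (fun n z => hpieq (c ^ n) z) f D e' hfib' hf0 hNum.ox hD he'pos hper
  -- a power of c which is trivial on the Sylow subgroups
  have hR3 : (K1 G ⊓ R.P x).Normal := (hS62 k G X l R x hSp hl hTwo.syl).2.1
  have hK1 := (hS62 k G X l R x hSp hl hTwo.syl).2.2.2.1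
  have htriv : ∀ w : ℕ, (∀ S : Sylow 3 G, c ^ w • S = S) → orderOf (c ^ w) ≤ 2 := by
    intro w hw
    refine S63_two_le G (K1 G) (K1 G ⊓ R.P x) (c ^ w) inf_le_left ?_ ?_ hK1
    · refine ⟨?_, Subgroup.pow_mem _ hcthr w⟩
      change c ^ w ∈ (ph G).ker
      rw [MonoidHom.mem_ker]
      apply Equiv.Perm.ext
      intro S
      exact hw S
    · have h1 : orderOf (c ^ w) ∣ u₁ * e' := by
        rw [← hord]
        exact orderOf_pow_dvd w
      have h2 : Nat.card (K1 G ⊓ R.P x : Subgroup G) ∣ 3 ^ m := by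
        rw [← hm]
        exact Subgroup.card_dvd_of_le inf_le_right
      have h4 : Nat.Coprime (orderOf (c ^ w)) (3 ^ m) := by
        apply Nat.Coprime.pow_right
        rw [Nat.coprime_comm, Nat.Prime.coprime_iff_not_dvd Nat.prime_three]
        intro h
        exact h3 (h.trans h1)
      exact Nat.Coprime.coprime_dvd_right h2 h4
  have hord' : ∀ w : ℕ, 0 < w → w ∣ u₁ * e' → (∀ S : Sylow 3 G, c ^ w • S = S) →
      u₁ * e' ≤ 2 * w := by
    intro w hw hdvd hS
    have h1 := htriv w hS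
    rw [orderOf_pow_of_dvd hw.ne' (by rw [hord]; exact hdvd), hord] at h1
    obtain ⟨q, hq⟩ := hdvd
    rw [hq] at h1 ⊢
    rw [Nat.mul_div_cancel_left _ hw] at h1
    nlinarith
  -- q_2 < q
  have hq : qq R y < qq R x := by
    have hle := Nat.le_of_dvd (by rw [hm]; positivity) hNum.qdvd
    refine lt_of_le_of_ne hle ?_
    intro heq
    have hcardSx : Nat.card Sx = 3 ^ (Nat.card G).factorization 3 := Sx.card_eq_multiplicity
    have hcardPx : Nat.card (R.P x) = 3 ^ (Nat.card G).factorization 3 := by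
      rw [← hcardSx]
      change Nat.card (R.P x) = Nat.card (Sx : Subgroup G)
      rw [hSx]
    have hcardPy : Nat.card (R.P y) = 3 ^ (Nat.card G).factorization 3 := by
      rw [← hcardPx]; exact heq
    have hfix : c ^ 1 • Sylow.ofCard (R.P y) hcardPy = Sylow.ofCard (R.P y) hcardPy := by
      rw [pow_one]
      apply Sylow.ext
      rw [Sylow.coe_subgroup_smul, Sylow.coe_ofCard]
      ext s
      rw [Subgroup.mem_pointwise_smul_iff_inv_smul_mem]
      have hz := hPconjy c (c⁻¹ * s * c)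
      have h1 : c * (c⁻¹ * s * c) * c⁻¹ = s := by group
      rw [h1, hcy] at hz
      rw [hz]
      have h2 : (MulAut.conj c)⁻¹ • s = c⁻¹ * s * c := by
        rw [← map_inv]
        change c⁻¹ * s * (c⁻¹)⁻¹ = c⁻¹ * s * c
        rw [inv_inv]
      rw [h2]
    rcases horb with ⟨_, h⟩ | ⟨_, w, _, hw2, h⟩
    · have h1 := (h _ 1).1 hfix
      have h2 := Nat.le_of_dvd one_pos h1
      omega
    · have h1 := (h _ 1).1 hfix
      have h2 := Nat.le_of_dvd one_pos h1
      omega
  -- f is 2 modulo 3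
  have hf3 : f % 3 = 2 := by
    obtain ⟨hmod, z₀, _, _, hz₀, _, hz₀1, _⟩ :=
      hF1 k G X l R (R.P x) hSp.mod3 hPx hTwo.wild
    have hCl : ∀ (a : G) (z : X), Cl1 R z → Cl1 R (a • z) := by
      rintro a z ⟨s, hs, hs1, hs3⟩
      refine ⟨a * s * a⁻¹, ?_, ?_, ?_⟩
      · exact ((hBA1 k G X (l + 1) R z).2.2.2.1 a s).2 hs
      · intro h
        apply hs1
        have h' : s = a⁻¹ * (a * s * a⁻¹) * a := by group
        rw [h', h]
        group
      · rw [R.conj]; exact hs3
    have hfixO : ∀ z : X, (∀ s ∈ R.P x, s • z = z) → z ∈ orbit G x := by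
      intro z hz
      have hle : R.P x ≤ R.P z := by
        intro s hs
        apply (hBA1 k G X (l + 1) R z).2.2.1 s (hz s hs)
        obtain ⟨n, hn⟩ := hPx ⟨s, hs⟩
        exact ⟨n, congrArg Subtype.val hn⟩
      have hst : stabilizer G z ≠ ⊥ := by
        intro h
        apply hTwo.wild
        rw [eq_bot_iff]
        intro s hs
        have : s ∈ stabilizer G z := hz s hs
        rw [h] at this
        exact this
      rcases hTwo.cov z hst with h | h
      · exact h
      · exfalso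
        obtain ⟨a, rfl⟩ := h
        have h1 : qq R (a • y) = qq R y := (hinvy a).1
        have h2 : qq R x ≤ qq R (a • y) := Nat.le_of_dvd Nat.card_pos (Subgroup.card_dvd_of_le hle)
        omega
    have hset : Nat.card {z : X // (∀ s ∈ R.P x, s • z = z) ∧ Cl1 R z} = f := by
      rw [← hfib Sx, hSx]
      apply Nat.card_congr
      apply Equiv.subtypeEquivRight
      intro z
      constructor
      · rintro ⟨h1, h2⟩
        have hz := hfixO z h1
        exact ⟨hz, (hPz z hz).2 h1⟩
      · rintro ⟨h1, h2⟩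
        refine ⟨(hPz z h1).1 h2, ?_⟩
        have hz₀O := hfixO z₀ hz₀
        obtain ⟨a, ha⟩ := h1
        obtain ⟨b, hb⟩ := hz₀O
        have ha' : a • x = z := ha
        have hb' : b • x = z₀ := hb
        have h5 : z = (a * b⁻¹) • z₀ := by
          rw [← hb', smul_smul, inv_mul_cancel_right, ha']
        rw [h5]
        exact hCl _ _ hz₀1
    rw [← hset]
    exact hmod
  -- the parity
  obtain ⟨q, hqe⟩ := hNum.qdvd
  have hqodd : Odd q := by
    have h1 : Odd (qq R x) := by rw [hm]; exact Odd.pow (by decide)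
    rw [hqe] at h1
    exact (Nat.odd_mul.1 h1).2
  have hoy : oo G y = D * q * h' := by
    have h1 := hNum.oy
    rw [hqe] at h1
    have h2 : 0 < qq R y := by rw [hm']; positivity
    apply Nat.eq_of_mul_eq_mul_left h2
    rw [h1]
    ring
  obtain ⟨tx, htx⟩ := hTx
  obtain ⟨ty, hty⟩ := hTy
  have hrh := hTwo.rh
  rw [hNum.ox, hoy, htx, hty] at hrh
  have hlodd : l % 2 = 1 := by
    have := hSp.mod8
    omega
  have hoo' : D * e' = f * Nat.card (Sylow 3 G) := by rw [← hNum.ox, hoo]
  obtain ⟨q', hq'⟩ := hqodd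
  have hcop : ¬ (2 ∣ h' ∧ 2 ∣ e') := by
    rintro ⟨h1, h2⟩
    have h4 := Nat.dvd_gcd h1 h2
    rw [hNum.cop] at h4
    omega
  rcases horb with ⟨hT, hTn⟩ | ⟨hD2, w, hwf, hw2, hwn⟩
  · -- c is transitive
    have h0 : Nat.card (Sylow 3 G) ∣ u₁ * e' := by
      have hne : Nonempty (Sylow 3 G) := inferInstance
      obtain ⟨S0⟩ := hne
      rw [← hTn S0, ← hord, pow_orderOf_eq_one, one_smul]
    have h1 := hord' (Nat.card (Sylow 3 G)) (by omega) h0 (fun S => (hTn S _).2 dvd_rfl)
    -- u₁ f ≤ 2 D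
    have h2 : u₁ * f ≤ 2 * D := by
      have h5 : D * (u₁ * e') ≤ D * (2 * Nat.card (Sylow 3 G)) := Nat.mul_le_mul_left D h1
      have h6 : D * (u₁ * e') = (u₁ * f) * Nat.card (Sylow 3 G) := by
        calc D * (u₁ * e') = u₁ * (D * e') := by ring
          _ = u₁ * (f * Nat.card (Sylow 3 G)) := by rw [hoo']
          _ = _ := by ring
      rw [h6] at h5
      have h7 : D * (2 * Nat.card (Sylow 3 G)) = (2 * D) * Nat.card (Sylow 3 G) := by ring
      rw [h7] at h5
      exact Nat.le_of_mul_le_mul_right h5 (by omega)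
    have hf4 : f ≤ 4 := by
      have : 1 * f ≤ u₁ * f := Nat.mul_le_mul_right f hu₁
      rcases hD with h | h <;> rw [h] at h2 <;> omega
    have hf2 : f = 2 := by omega
    subst hf2
    have hD2 : D = 2 := by
      rcases hD with h | h
      · exfalso
        subst h
        have he2 : 2 ∣ e' := ⟨Nat.card (Sylow 3 G), by omega⟩
        have hh2 : ¬ 2 ∣ h' := fun h => hcop ⟨h, he2⟩
        obtain ⟨h'', hh''⟩ : Odd h' := by
          rw [← Nat.not_even_iff_odd, even_iff_two_dvd]; exact hh2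
        obtain ⟨e'', he''⟩ := he2
        have e1 : 1 * e' * (2 * tx) = 2 * (e' * tx) := by ring
        have e2 : 1 * q * h' * (2 * ty) = 2 * (q * h' * ty) := by ring
        have e3 : 1 * q * h' = 2 * (2 * q' * h'' + q' + h'') + 1 := by
          rw [hq', hh'']; ring
        rw [e1, e2, e3] at hrh
        omega
      · exact h
    subst hD2
    have hOme : Nat.card (Sylow 3 G) = e' := by omega
    have hodd : ¬ 2 ∣ Nat.card (Sylow 3 G) := S63_odd G c hcthr hT (by omega)
    refine ⟨hq, rfl, hOme, by omega, by omega, hfib, Or.inr ?_⟩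
    refine
      { u1 := ?_
        od := ?_
        ev := ?_
        tr := hT
        orb := ?_ }
    · omega
    · rw [← hOme]; exact hodd
    · -- parity
      by_contra hh2
      obtain ⟨h'', hh''⟩ : Odd h' := by
        rw [← Nat.not_even_iff_odd, even_iff_two_dvd]; exact hh2
      obtain ⟨e'', he''⟩ : Odd e' := by
        rw [← Nat.not_even_iff_odd, even_iff_two_dvd, ← hOme]; exact hodd
      have e1 : 2 * e' * (2 * tx) = 4 * (e' * tx) := by ring
      have e2 : 2 * q * h' * (2 * ty) = 4 * (q * h' * ty) := by ring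
      have e3 : 2 * q * h' = 4 * (2 * q' * h'' + q' + h'') + 2 := by
        rw [hq', hh'']; ring
      rw [e1, e2, e3] at hrh
      omega
    · intro S n
      rw [hTn S n, hOme]
  · -- two orbits
    subst hD2
    have hw0 : 0 < w := by
      rcases Nat.eq_zero_or_pos w with h | h
      · exfalso; rw [h] at hw2; omega
      · exact h
    have h0 : w ∣ u₁ * e' := ⟨u₁ * f, by rw [← hwf]; ring⟩
    have h1 := hord' w hw0 h0 (fun S => (hwn S _).2 dvd_rfl)
    have h2 : u₁ * f ≤ 2 := by
      have h5 : (u₁ * f) * w ≤ 2 * w := by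
        calc (u₁ * f) * w = u₁ * (w * f) := by ring
          _ = u₁ * e' := by rw [hwf]
          _ ≤ 2 * w := h1
      exact Nat.le_of_mul_le_mul_right h5 hw0
    have hf2 : f = 2 := by
      have : 1 * f ≤ u₁ * f := Nat.mul_le_mul_right f hu₁
      omega
    subst hf2
    have hu1 : u₁ = 1 := by omega
    have hOme : Nat.card (Sylow 3 G) = e' := by omega
    have he2 : 2 ∣ e' := ⟨w, by omega⟩
    refine ⟨hq, rfl, hOme, by omega, by omega, hfib, Or.inl ?_⟩
    refine
      { u1 := hu1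
        ev := he2
        od := fun h => hcop ⟨h, he2⟩
        orb := ?_ }
    intro S n
    have hw' : e' / 2 = w := by omega
    rw [hw']
    exact hwn S n

end Pool.Agent.helper75.AU
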