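import Pool.Agent.helper2.AU.SpecX

/-!
# Project au: module XR (the Riemann-Hurwitz formula)
-/

namespace Pool.Agent.helper53.AU

open scoped Classical IntermediateField

noncomputable section

theorem XR_finite (hXP : XP_stmt) (k F : Type) [Field k] [IsAlgClosed k] [Field F] [Algebra k F]
    (hF : IsFF k F) (H : Subgroup (F ≃ₐ[k] F)) [Fintype H] :
    (Function.support fun P : Place k F => dexp H P).Finite := by
  have hfin : (⋃ s ∈ (Set.univ : Set H), {P : Place k F |
      (s : F ≃ₐ[k] F) ≠ 1 ∧ (s : F ≃ₐ[k] F) • P = P}).Finite := by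
    apply Set.Finite.biUnion Set.finite_univ
    intro s _
    by_cases hs : (s : F ≃ₐ[k] F) = 1
    · apply Set.Finite.subset Set.finite_empty
      intro P hP
      exact (hP.1 hs).elim
    · exact (hXP k F hF (s : F ≃ₐ[k] F) hs).subset (fun P hP => hP.2)
  apply hfin.subset
  intro P hP
  rw [Function.mem_support] at hP
  unfold dexp at hP
  obtain ⟨s, hs, _⟩ := Finset.exists_ne_zero_of_sum_ne_zero hP
  rw [Finset.mem_filter] at hs
  rw [Set.mem_iUnion₂]
  exact ⟨s, Set.mem_univ s, hs.2⟩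

theorem XR (hXF : XF_stmt) (hXB : XB_stmt) (hXS : XS_stmt) (hXD : XD_stmt) (hXH : XH_stmt)
    (hXP : XP_stmt) (hQR2 : QR2_stmt) (hQK1 : QK1_stmt) (hQH1 : QH1_stmt) : XR_stmt := by
  intro k F _ _ _ _ hF g hg H _
  have hfin := XR_finite hXP k F hF H
  refine ⟨hfin, ?_⟩
  obtain ⟨hE, _, _⟩ := hXF k F hF H
  obtain ⟨γ, hγ⟩ := hQR2 k (IntermediateField.fixedField H) hE
  refine ⟨γ, hγ, ?_⟩
  obtain ⟨D', hD'⟩ := hQK1 k (IntermediateField.fixedField H) hE
  obtain ⟨D, hD⟩ := hXD k F H D'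
  have hx : ∃ x : IntermediateField.fixedField H, D' x ≠ 0 := by
    by_contra hcon
    push Not at hcon
    apply hD'
    ext x
    rw [hcon x]
    rfl
  obtain ⟨x, hx⟩ := hx
  have hDx : D (x : F) ≠ 0 := by
    rw [hD x]
    intro h
    apply hx
    exact Subtype.ext h
  obtain ⟨hfF, hsF⟩ := hQH1 k F hF g hg D (x : F) hDx
  obtain ⟨hfE, hsE⟩ := hQH1 k (IntermediateField.fixedField H) hE γ hγ D' x hx
  obtain ⟨π, e, hB, _⟩ := hXB k F H
  have hpt : ∀ P : Place k F, P.dord D (x : F) = (e P : ℤ) * (π P).dord D' x + dexp H P := by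
    intro P
    have h1 := hXH k F hF H D' D hD' hD P (π P) (e P) (hB P)
    have h2 : P.ord (D (((π P).unif : IntermediateField.fixedField H) : F)) =
        e P * (π P).ord (D' (π P).unif) := by
      rw [hD]
      exact (hB P).2 _
    have h3 : P.ord (D (x : F)) = e P * (π P).ord (D' x) := by
      rw [hD]
      exact (hB P).2 _
    unfold Place.dord
    rw [h3]
    rw [h2] at h1
    rw [← h1]
    ring
  obtain ⟨hfS, hS⟩ := hXS k F hF H π e hB (fun Q => Q.dord D' x) hfE
  rw [← hsF, ← hsE, ← hS, ← finsum_add_distrib hfS hfin]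
  exact finsum_congr hpt

end

end Pool.Agent.helper53.AU
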